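import Mathlib
import Pool.Agent.H51.MirrorB

set_option autoImplicit false

namespace Pool.Agent.Results.MP_709dca_mp.All

open Matrix
open scoped Kronecker ComplexOrder

/-- operators on `ℂ^d ⊗ ℂ^d` -/
abbrev Op (d : ℕ) : Type := Matrix (Fin d × Fin d) (Fin d × Fin d) ℂ

def IsState {n : Type} [Fintype n] (ρ : Matrix n n ℂ) : Prop := ρ.PosSemidef ∧ ρ.trace = 1

def Separable {d : ℕ} (σ : Op d) : Prop :=
  σ ∈ convexHull ℝ {ρ : Op d | ∃ α β : Matrix (Fin d) (Fin d) ℂ,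
    IsState α ∧ IsState β ∧ ρ = α ⊗ₖ β}

def IsEW {d : ℕ} (W : Op d) : Prop :=
  W.IsHermitian ∧ (∀ σ : Op d, Separable σ → 0 ≤ (W * σ).trace.re) ∧
    ∃ ρ : Op d, IsState ρ ∧ (W * ρ).trace.re < 0

def OptimalEW {d : ℕ} (W : Op d) : Prop :=
  IsEW W ∧ ¬ ∃ (ε : ℝ) (P : Op d), 0 < ε ∧ P.PosSemidef ∧ P ≠ 0 ∧ IsEW (W - (ε : ℂ) • P)

open Pool.Agent.H51.MirrorA Pool.Agent.H51.MirrorB in
lemma opt {d : ℕ} (hd : 4 ≤ d) (s : ℝ) (hs : s = 1 ∨ s = -1) : OptimalEW (WN (NN (d := d) s)) := by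
  refine ⟨⟨WN_herm _ (NN_symm s), fun σ hσ => ?_, ?_⟩, ?_⟩
  · refine convexHull_min (t := {σ : Op d | 0 ≤ (WN (NN s) * σ).trace.re}) ?_ ?_ hσ
    · rintro _ ⟨α, β, hα, hβ, rfl⟩
      exact block_pos _ ee (NN_abs s hs) hα.1 hβ.1 hα.2 hβ.2
    · intro x hx y hy a b ha hb _
      simp only [Set.mem_setOf_eq] at hx hy ⊢
      rw [Matrix.mul_add, trace_add, Matrix.mul_smul, Matrix.mul_smul, trace_smul, trace_smul,
        Complex.add_re, Complex.smul_re, Complex.smul_re]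
      exact add_nonneg (mul_nonneg ha hx) (mul_nonneg hb hy)
  · obtain ⟨ρ, h1, h2, h3⟩ := neg_state hd s hs
    exact ⟨ρ, ⟨h1, h2⟩, h3⟩
  · rintro ⟨ε, P, hε, hP, hne, hW⟩
    exact hne (P_zero hd s hs P hP ε hε fun α β h1 h2 h3 h4 =>
      hW.2.1 _ (subset_convexHull ℝ _ ⟨α, β, ⟨h1, h2⟩, ⟨h3, h4⟩, rfl⟩))

theorem result (d : ℕ) (hd : 4 ≤ d) :
    ∃ (W M : Op d) (u : ℝ), W + M = (u : ℂ) • (1 : Op d) ∧ OptimalEW W ∧ OptimalEW M := by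
  refine ⟨_, _, 2, ?_, opt hd 1 (Or.inl rfl), opt hd (-1) (Or.inr rfl)⟩
  rw [← Pool.Agent.H51.MirrorB.NN_neg]
  exact Pool.Agent.H51.MirrorA.WN_add _

end Pool.Agent.Results.MP_709dca_mp.All
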